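import Pool.Agent.Y12.CR.Pairs

/-!
# One graph for a whole family

All containments are as induced subgraphs; `IsFreeColoring` and `FreeChromaticNumberEq` are those
of the file `BipartiteRelated`. `NoCut F` means that `F` is connected with an edge and without cut
vertex, and `Good F` that `F` or its complement is such.
-/

set_option autoImplicit false

namespace Pool.Agent.Results.MP_fbe9f6_co.CommonHost

open Pool.Agent.Results.MP_fbe9f6_co.BipartiteRelated Pool.Agent.Y12.CR

universe u v

/-- Let `F` or its complement be connected without cut vertex. For finitely many finite graphs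
`G i` which contain `F` and split into two sets without `F`, and every `l ≥ 2`, there is one finite
graph `H` with `χ(H : -F) = l` and `χ(H : -G i) = l` for all `i`. -/
theorem result (U : Type u) [Finite U] (F : SimpleGraph U) (hF : Good F)
    (ι : Type) [Finite ι] [Nonempty ι] (V : ι → Type v) [∀ i, Finite (V i)]
    (G : ∀ i, SimpleGraph (V i)) (h1 : ∀ i, Nonempty (F ↪g G i))
    (h2 : ∀ i, ∃ c : V i → Fin 2, IsFreeColoring (G i) F c) (l : ℕ) (hl : 2 ≤ l) :
    ∃ (W : Type) (_ : Finite W) (H : SimpleGraph W), FreeChromaticNumberEq H F l ∧
      ∀ i, FreeChromaticNumberEq H (G i) l :=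
  good_family hF V G h1 h2 hl

end Pool.Agent.Results.MP_fbe9f6_co.CommonHost
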