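import Pool.Agent.Y387.CR.Main
import Pool.Agent.Results.MP_fbe9f6_co.BipartiteRelated

/-!
# Bipartite graphs in the colour classes of graphs of large odd girth

For all `l ≥ 2`, `d` and `g` there is one finite graph `H` of chromatic number `l` without odd
cycles of length at most `g` such that in every partition of `V(H)` into `l - 1` classes some
class contains all bipartite graphs with at most `d` vertices as induced subgraphs. Hence any two
bipartite graphs with an edge are chromatically related.

The definitions of `IsFreeColoring`, `FreeChromaticNumberEq`, `ChromaticallyRelated` and `K2` are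
those of the earlier result `BipartiteRelated`.
-/

set_option autoImplicit false

namespace Pool.Agent.Results.MP_fbe9f6_co.LargeOddGirth

open Pool.Agent.Results.MP_fbe9f6_co.BipartiteRelated

theorem main (l d g : ℕ) (hl : 2 ≤ l) : ∃ (W : Type) (_ : Finite W) (H : SimpleGraph W),
    (∀ (x : W) (w : H.Walk x x), Odd w.length → g < w.length) ∧
    H.chromaticNumber = l ∧
    (∀ c : W → Fin (l - 1), ∃ i, ∀ (V : Type) [Finite V] (G : SimpleGraph V), G.IsBipartite →
      Nat.card V ≤ d → Nonempty (G ↪g H.induce {w | c w = i})) ∧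
    ∀ (V : Type) [Finite V] (G : SimpleGraph V), G.IsBipartite → Nat.card V ≤ d →
      (∃ x y, G.Adj x y) → FreeChromaticNumberEq H G l := by
  obtain ⟨W, hW, H, h1, ⟨p, hp⟩, h2⟩ := Pool.Agent.Y387.CR.exists_univ.{0} l (d + 2) g hl
  refine ⟨W, hW, H, h1, ?_, ?_, ?_⟩
  · obtain ⟨r, rfl⟩ : ∃ r, l = r + 1 := ⟨l - 1, by omega⟩
    push_cast
    rw [SimpleGraph.chromaticNumber_eq_iff_colorable_not_colorable]
    refine ⟨⟨SimpleGraph.Coloring.mk p (fun h => hp _ _ h)⟩, ?_⟩
    rintro ⟨C⟩
    obtain ⟨i, hi⟩ := h2 (fun w => C w)
    have hb : K2.IsBipartite :=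
      ⟨SimpleGraph.Coloring.mk (fun v => v) (fun h => h)⟩
    obtain ⟨e⟩ := hi (Fin 2) K2 hb (by simp)
    have h3 : (H.induce {w | C w = i}).Adj (e 0) (e 1) := by
      rw [e.map_adj_iff]; simp
    have h4 : H.Adj (e 0).1 (e 1).1 := h3
    exact C.valid h4 (((e 0).2 : C (e 0).1 = i).trans ((e 1).2 : C (e 1).1 = i).symm)
  · intro c
    obtain ⟨i, hi⟩ := h2 c
    exact ⟨i, fun V _ G hG hV => hi V G hG (by omega)⟩
  · rintro V _ G hG hV ⟨x, y, hxy⟩
    have : Nonempty V := ⟨x⟩
    refine ⟨⟨p, ?_⟩, ?_⟩
    · intro i
      refine ⟨fun f => ?_⟩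
      have h3 : (H.induce {v | p v = i}).Adj (f x) (f y) := f.map_adj_iff.2 hxy
      have h4 : H.Adj (f x).1 (f y).1 := h3
      exact hp _ _ h4 (((f x).2 : p (f x).1 = i).trans ((f y).2 : p (f y).1 = i).symm)
    · rintro k ⟨c, hc⟩
      by_contra hlt
      have hc' := hc.castLE (show k ≤ l - 1 by omega)
      obtain ⟨i, hi⟩ := h2 (fun w => Fin.castLE (show k ≤ l - 1 by omega) (c w))
      obtain ⟨e⟩ := hi V G hG (by omega)
      exact (hc' i).false e

theorem not_related : ¬ ChromaticallyRelated (⊥ : SimpleGraph (Fin 2)) (⊥ : SimpleGraph (Fin 3)) := by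
  intro h
  obtain ⟨W, _, H, ⟨⟨c, hc⟩, -⟩, ⟨-, hmin⟩⟩ := h 2 le_rfl
  have h1 : (1 : ℕ) ∈ {k : ℕ | ∃ c : W → Fin k, IsFreeColoring H (⊥ : SimpleGraph (Fin 3)) c} := by
    refine ⟨fun _ => 0, fun i => ⟨fun f => ?_⟩⟩
    have hni : ¬ Function.Injective (fun v : Fin 3 => c (f v).1) := by
      intro hinj
      have := Fintype.card_le_of_injective _ hinj
      simp at this
    rw [Function.Injective] at hni
    push Not at hni
    obtain ⟨a, b, hab, hne⟩ := hni
    have hnadj : ∀ u v : Fin 3, ¬ H.Adj (f u).1 (f v).1 := by
      intro u v huv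
      have : (H.induce {v | (fun _ : W => (0 : Fin 1)) v = i}).Adj (f u) (f v) := huv
      rw [f.map_adj_iff] at this
      exact this.elim
    refine (hc (c (f a).1)).false ⟨⟨fun j => if j = 0 then ⟨(f a).1, rfl⟩ else
      ⟨(f b).1, hab.symm⟩, ?_⟩, ?_⟩
    · intro j j' hjj
      have hfab : (f a).1 ≠ (f b).1 := fun h => hne (f.injective (Subtype.ext h))
      fin_cases j <;> fin_cases j'
      · rfl
      · exact absurd (by simpa using hjj) hfab
      · exact absurd (by simpa using hjj) hfab.symm
      · rfl
    · intro j j'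
      constructor
      · intro h
        exfalso
        revert h
        fin_cases j <;> fin_cases j'
        · exact fun h => H.loopless.irrefl _ h
        · exact fun h => hnadj a b h
        · exact fun h => hnadj b a h
        · exact fun h => H.loopless.irrefl _ h
      · intro h
        exact h.elim
  have := hmin h1
  omega

/-- (1) For all `l ≥ 2`, `d` and `g` there is a finite graph `H` without closed walks of odd length
at most `g` (so its odd girth is larger than `g`), with chromatic number `l`, such that in every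
partition of its vertex set into `l - 1` classes one of the classes contains all bipartite graphs
with at most `d` vertices as induced subgraphs; and `χ(H : -G) = l` for all bipartite graphs `G`
with at least one edge and at most `d` vertices.

(2) Any two finite bipartite graphs with at least one edge each are chromatically related.

(3) (Q1) Every finite bipartite graph with at least two vertices is chromatically related to
`K₂`.

(4) In (2) the edges cannot be dispensed with, and being chromatically related is not transitive: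
the edgeless graphs with two and with three vertices are not chromatically related, although both
are chromatically related to `K₂` by (3). -/
theorem result :
    (∀ l d g : ℕ, 2 ≤ l → ∃ (W : Type) (_ : Finite W) (H : SimpleGraph W),
      (∀ (x : W) (w : H.Walk x x), Odd w.length → g < w.length) ∧
      H.chromaticNumber = l ∧
      (∀ c : W → Fin (l - 1), ∃ i, ∀ (V : Type) [Finite V] (G : SimpleGraph V), G.IsBipartite →
        Nat.card V ≤ d → Nonempty (G ↪g H.induce {w | c w = i})) ∧
      ∀ (V : Type) [Finite V] (G : SimpleGraph V), G.IsBipartite → Nat.card V ≤ d →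
        (∃ x y, G.Adj x y) → FreeChromaticNumberEq H G l) ∧
    (∀ (U V : Type) [Finite U] [Finite V] (F : SimpleGraph U) (G : SimpleGraph V),
      F.IsBipartite → G.IsBipartite → (∃ x y, F.Adj x y) → (∃ x y, G.Adj x y) →
      ChromaticallyRelated F G) ∧
    (∀ (V : Type) [Finite V] (G : SimpleGraph V), 2 ≤ Nat.card V → G.IsBipartite →
      ChromaticallyRelated G K2) ∧
    ¬ ChromaticallyRelated (⊥ : SimpleGraph (Fin 2)) (⊥ : SimpleGraph (Fin 3)) := by
  refine ⟨main, ?_, ?_, not_related⟩
  · intro U V _ _ F G hF hG hF' hG' l hl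
    obtain ⟨W, hW, H, -, -, -, h⟩ := main l (max (Nat.card U) (Nat.card V)) 0 hl
    exact ⟨W, hW, H, h U F hF (le_max_left _ _) hF', h V G hG (le_max_right _ _) hG'⟩
  · intro V _ G hV hG
    have := Fintype.ofFinite V
    exact BipartiteRelated.result G (by rwa [Nat.card_eq_fintype_card] at hV) hG

end Pool.Agent.Results.MP_fbe9f6_co.LargeOddGirth
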