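import Pool.Agent.Y12.CR.Paw

/-!
# The general statement from which Q1 was known to follow is false

All containments are as induced subgraphs; `IsFreeColoring`, `FreeChromaticNumberEq` and
`ChromaticallyRelated` are those of the file `BipartiteRelated`. `paw` is the triangle `0, 1, 2`
with the vertex `3` adjacent to `0` only.
-/

set_option autoImplicit false

namespace Pool.Agent.Results.MP_fbe9f6_co.PawCounterexample

open Pool.Agent.Results.MP_fbe9f6_co.BipartiteRelated Pool.Agent.Y12.CR

/-- The paw is connected, and there is a connected graph `G` which contains the paw, with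
`χ(G : -paw) ≤ 2` and `χ(paw : -G) ≤ 2`, such that `G` and the paw are `2`-chromatically related,
but not `l`-chromatically related for any `l ≥ 3`. -/
theorem result : paw.Connected ∧ ∃ (V : Type) (_ : Finite V) (G : SimpleGraph V), G.Connected ∧
    Nonempty (paw ↪g G) ∧ (∃ c : V → Fin 2, IsFreeColoring G paw c) ∧
    (∃ c : Fin 4 → Fin 2, IsFreeColoring paw G c) ∧
    (∃ (W : Type) (_ : Finite W) (H : SimpleGraph W),
      FreeChromaticNumberEq H paw 2 ∧ FreeChromaticNumberEq H G 2) ∧
    (∀ l : ℕ, 3 ≤ l → ¬ ∃ (W : Type) (_ : Finite W) (H : SimpleGraph W),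
      FreeChromaticNumberEq H paw l ∧ FreeChromaticNumberEq H G l) ∧
    ¬ ChromaticallyRelated paw G := by
  obtain ⟨V, hV, G, h1, h2, h3, h4, h5, h6⟩ := paw_main
  have h0 : ∀ a, paw.Reachable a 0 := by
    intro a
    by_cases h : a = 0
    · rw [h]
    · exact SimpleGraph.Adj.reachable ((paw_adj a 0).2 ⟨h, Or.inr (Or.inr rfl)⟩)
  exact ⟨⟨fun a b => (h0 a).trans (h0 b).symm⟩, V, hV, G, h1, h2, h3, h4, h5, h6,
    fun h => h6 3 le_rfl (h 3 (by norm_num))⟩

end Pool.Agent.Results.MP_fbe9f6_co.PawCounterexample
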