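import Pool.Agent.Y783.CR.Final

/-!
# Graphs chromatically related to complete graphs and to vertex Ramsey graphs

`F ≍ G` (`ChromaticallyRelated F G`) means that for every `l ≥ 2` some finite graph `H` has
`χ(H : -F) = χ(H : -G) = l`. The problem asks whether every bipartite graph with at least two
vertices is related to `K₂`. Here the graphs related to `K_n` are determined for every `n ≥ 2`, and
the criterion `F ≍ G ↔ χ(F : -G) ≤ 2 ∧ χ(G : -F) ≤ 2` is proved whenever the classes of finite
graphs without induced `F`, and without induced `G`, have the vertex Ramsey property, for instance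
when `F` and `G` are 2-connected, have 2-connected complements, or are prime.

All containments are as induced subgraphs. The definitions `IsFreeColoring`,
`FreeChromaticNumberEq` and `ChromaticallyRelated` are those of
`Pool.Agent.Results.MP_fbe9f6_co.BipartiteRelated`.
-/

set_option autoImplicit false

namespace Pool.Agent.Results.MP_fbe9f6_co.RamseyClasses

open Pool.Agent.Results.MP_fbe9f6_co.BipartiteRelated

universe u v w

/-- The class of finite graphs without induced `F` has the vertex Ramsey property: for every finite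
graph `G` without induced `F` and every `r ≥ 1` some finite graph `K` without induced `F` has, in
every colouring of its vertices with `r` colours, an induced copy of `G` of one colour. -/
def VertexRamsey {U : Type u} (F : SimpleGraph U) : Prop :=
  ∀ (V : Type) [Finite V] (G : SimpleGraph V), IsEmpty (F ↪g G) → ∀ r : ℕ, 1 ≤ r →
    ∃ (R : Type) (_ : Finite R) (K : SimpleGraph R), IsEmpty (F ↪g K) ∧
      ∀ c : R → Fin r, ∃ (i : Fin r) (f : G ↪g K), ∀ v, c (f v) = i

/-- `F` is connected, has at least two vertices and no cut vertex: if `A` and `B` are disjoint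
nonempty sets of vertices without edges between them, then at least two vertices lie outside
`A ∪ B`. -/
def TwoConnected {U : Type u} (F : SimpleGraph U) : Prop :=
  Nontrivial U ∧ ∀ A B : Set U, A.Nonempty → B.Nonempty → (∀ x, x ∈ A → x ∉ B) →
    (∀ a ∈ A, ∀ b ∈ B, ¬ F.Adj a b) → ∃ x y, x ≠ y ∧ x ∉ A ∧ x ∉ B ∧ y ∉ A ∧ y ∉ B

/-- `F` is prime: every set of vertices whose members have the same neighbours outside the set is
empty, a single vertex or everything. -/
def Prime {U : Type u} (F : SimpleGraph U) : Prop :=
  ∀ M : Set U, (∀ z, z ∉ M → ∀ x ∈ M, ∀ y ∈ M, (F.Adj z x ↔ F.Adj z y)) →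
    M.Subsingleton ∨ M = Set.univ

/-- **Chromatic relatedness.** Let all graphs be finite with at least two vertices.

1. For every `n ≥ 2`, a graph `G` is related to `K_n` if and only if its vertices split into two
   sets without `K_n`, and `G` is not a complete graph `K_m` with `n > 2 (m - 1)`.
2. If `F` is complete or edgeless, or `F` is vertex Ramsey and `G` is vertex Ramsey or contains
   `F`, then `F` and `G` are related if and only if `F` splits into two sets without `G` and `G`
   splits into two sets without `F`.
3. If `F` is vertex Ramsey, any two graphs that contain `F` and split into two sets without `F` are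
   related to each other.
4. `F` is vertex Ramsey if it is 2-connected, if its complement is, or if it is prime. -/
theorem result :
    (∀ (V : Type v) [Finite V] [Nontrivial V] (G : SimpleGraph V) (n : ℕ), 2 ≤ n →
      (ChromaticallyRelated G (⊤ : SimpleGraph (Fin n)) ↔
        (∃ c : V → Fin 2, IsFreeColoring G (⊤ : SimpleGraph (Fin n)) c) ∧
          (G = ⊤ → n ≤ 2 * (Nat.card V - 1)))) ∧
    (∀ (U : Type u) (V : Type v) [Finite U] [Finite V] [Nontrivial U] [Nontrivial V]
      (F : SimpleGraph U) (G : SimpleGraph V),
      (F = ⊤ ∨ F = ⊥ ∨ (VertexRamsey F ∧ (VertexRamsey G ∨ Nonempty (F ↪g G)))) →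
      (ChromaticallyRelated F G ↔ (∃ c : U → Fin 2, IsFreeColoring F G c) ∧
        ∃ c : V → Fin 2, IsFreeColoring G F c)) ∧
    (∀ (U : Type u) (V₁ : Type v) (V₂ : Type w) [Finite U] [Finite V₁] [Finite V₂] [Nontrivial U]
      (F : SimpleGraph U) (G₁ : SimpleGraph V₁) (G₂ : SimpleGraph V₂), VertexRamsey F →
      Nonempty (F ↪g G₁) → Nonempty (F ↪g G₂) →
      (∃ c : V₁ → Fin 2, IsFreeColoring G₁ F c) → (∃ c : V₂ → Fin 2, IsFreeColoring G₂ F c) →
      ChromaticallyRelated G₁ G₂) ∧
    (∀ (U : Type u) [Finite U] [Nontrivial U] (F : SimpleGraph U),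
      (TwoConnected F ∨ TwoConnected Fᶜ ∨ Prime F) → VertexRamsey F) := by
  refine ⟨?_, ?_, ?_, ?_⟩
  · intro V _ _ G n hn
    have hnt : Nontrivial (Fin n) := Fin.nontrivial_iff_two_le.2 hn
    have h := Pool.Agent.Y783.CR.main (⊤ : SimpleGraph (Fin n)) G (Or.inl rfl)
    rw [Pool.Agent.Y783.CR.top_split] at h
    constructor
    · intro h'
      exact (h.1 (Pool.Agent.Y783.CR.related_symm h')).symm
    · intro h'
      exact Pool.Agent.Y783.CR.related_symm (h.2 h'.symm)
  · intro U V _ _ _ _ F G h
    refine Pool.Agent.Y783.CR.main F G ?_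
    rcases h with h | h | ⟨h1, h2⟩
    · exact Or.inl h
    · exact Or.inr (Or.inl h)
    · refine Or.inr (Or.inr ⟨Pool.Agent.Y783.CR.fine_of_ram h1, ?_⟩)
      rcases h2 with h2 | h2
      · exact Or.inl (Pool.Agent.Y783.CR.fine_of_ram h2)
      · exact Or.inr h2
  · intro U V₁ V₂ _ _ _ _ F G₁ G₂ hF e₁ e₂ h₁ h₂
    exact Pool.Agent.Y783.CR.related_of_common hF e₁ e₂ h₁ h₂
  · intro U _ _ F h
    rcases h with h | h | h
    · exact Pool.Agent.Y783.CR.ram_of_twoConn h
    · exact Pool.Agent.Y783.CR.ram_compl (Pool.Agent.Y783.CR.ram_of_twoConn h)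
    · exact Pool.Agent.Y783.CR.ram_of_prime h

end Pool.Agent.Results.MP_fbe9f6_co.RamseyClasses
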